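import Pool.Agent.Run7.h908.TG.Nrm
import Pool.Agent.Run7.h437.TS.W
import Pool.Agent.Run7.h437.TS.TRS
import Pool.Agent.Run7.h437.TS.Exp

/-!
# KILL: many primes `Q` with exactly two primes over them at which `α` is not trivial

Project TG (helper784); helper908.
-/

set_option autoImplicit false
set_option linter.all false

open Polynomial IsDedekindDomain
open scoped Classical

namespace Run7.h908.TG

open Run7.h784.TG (P_COMB P_W P_STK P_DIC P_KILL FacR nv zp evt Fm nf evd nr Full)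
open Pool.Agent.N352.PJ (IsGen Crd dsc)
open Pool.Agent.N874.PP (Ov Ev Sq1)
open Run7.h875.TS (chi cd irrD Tr)
open Run7.h437.TS (trs card_zero_le one_le_sqrt_cd abs_chi_le aeval_zero_iff)

section pt

variable {k F : Type} [Field k] [Field F] [Fintype F] [Algebra k F]

/-- The weight of a factorisation. -/
noncomputable def psi {m : ℕ} (z : Fin m → k[X]) (t : F) (a : F[X]) : ℝ :=
  (1 - chi (nv a (zp (evt (k := k) t) z))) / 2

theorem abs_psi {m : ℕ} (z : Fin m → k[X]) (t : F) (a : F[X]) : 0 ≤ psi z t a ∧ psi z t a ≤ 1 := by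
  have h := abs_le.1 (abs_chi_le (nv a (zp (evt (k := k) t) z)))
  unfold psi
  constructor <;> linarith

/-- The sum over the factorisations. -/
noncomputable def Sm (f : k[X][X]) (hf : f.Monic) (d e : ℕ) {m : ℕ} (z : Fin m → k[X]) (t : F) : ℝ :=
  ∑ j ∈ Co d ×ˢ Co e, wt j.1.1 * wt j.2.1 *
    ∑ x ∈ (tp_fin (hf.map (evt (k := k) t)) (Fin.append j.1.2 j.2.2)).toFinset,
      psi z t (∏ i, x (Fin.castAdd j.2.1 i))

theorem abs_Sm (f : k[X][X]) (hf : f.Monic) {d e : ℕ} (hde : f.natDegree = d + e) {m : ℕ}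
    (z : Fin m → k[X]) (t : F) :
    |Sm f hf d e z t| ≤ (((Co d ×ˢ Co e).card * (2 ^ (d + e)) ^ (d + e) : ℕ) : ℝ) := by
  unfold Sm
  refine (Finset.abs_sum_le_sum_abs _ _).trans ?_
  have h1 : ∀ j ∈ Co d ×ˢ Co e, |wt j.1.1 * wt j.2.1 *
      ∑ x ∈ (tp_fin (hf.map (evt (k := k) t)) (Fin.append j.1.2 j.2.2)).toFinset,
        psi z t (∏ i, x (Fin.castAdd j.2.1 i))| ≤ (((2 ^ (d + e)) ^ (d + e) : ℕ) : ℝ) := by
    intro j hj
    rw [Finset.mem_product, mem_Co, mem_Co] at hj
    have e1 := abs_wt hj.1.1.1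
    have e2 := abs_wt hj.2.1.1
    have e3 : |∑ x ∈ (tp_fin (hf.map (evt (k := k) t)) (Fin.append j.1.2 j.2.2)).toFinset,
        psi z t (∏ i, x (Fin.castAdd j.2.1 i))| ≤ (((2 ^ (d + e)) ^ (d + e) : ℕ) : ℝ) := by
      refine (Finset.abs_sum_le_sum_abs _ _).trans ?_
      refine (Finset.sum_le_sum (g := fun _ => (1 : ℝ)) fun x _ => ?_).trans ?_
      · have := abs_psi z t (∏ i, x (Fin.castAdd j.2.1 i))
        rw [abs_of_nonneg this.1]
        exact this.2
      · rw [Finset.sum_const, nsmul_eq_mul, mul_one]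
        have h4 := (tp_aux (hf.map (evt (k := k) t)) (Fin.append j.1.2 j.2.2)).2
        rw [Set.ncard_eq_toFinset_card _ (tp_fin (hf.map (evt (k := k) t))
          (Fin.append j.1.2 j.2.2)), hf.natDegree_map, hde] at h4
        exact_mod_cast h4.trans (Nat.pow_le_pow_right (by positivity) (by omega))
    rw [abs_mul, abs_mul]
    calc |wt j.1.1| * |wt j.2.1| * _ ≤ 1 * 1 * (((2 ^ (d + e)) ^ (d + e) : ℕ) : ℝ) := by
          refine mul_le_mul (mul_le_mul e1 e2 (abs_nonneg _) zero_le_one) e3 (abs_nonneg _)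
            (by norm_num)
      _ = _ := by ring
  refine (Finset.sum_le_sum h1).trans (le_of_eq ?_)
  rw [Finset.sum_const, nsmul_eq_mul]
  push_cast
  ring

end pt

/-- The sum over all `t`. -/
theorem sum_Sm {k : Type} [Field k] {g : ℕ} {f : k[X][X]} (hf : f.Monic) (hComb : P_COMB)
    {d e : ℕ} (hd : 1 ≤ d) (he : 1 ≤ e) (hde : d + e = 2 * g + 1) (hev : Even d) (C₁ : ℕ)
    {F : Type} [Field F] [Fintype F] [Algebra k F] (z : Fin (2 * g + 1) → k[X]) (N' : ℕ)
    (h1 : ∀ (l : ℕ) (c : Fin l → ℕ), (∀ i, 1 ≤ c i) → ∑ i, c i = 2 * g + 1 →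
      |(∑ t : F, ((FacR (evt (k := k) t) f c).ncard : ℝ)) - cd F| ≤ C₁ * √(cd F))
    (h2 : ∀ (l : ℕ) (c : Fin l → ℕ), (∀ i, 1 ≤ c i) → ∑ i, c i = 2 * g + 1 →
      ∀ B : Finset (Fin l), B.Nonempty → Even (∑ i ∈ B, c i) →
      |∑ t : F, ∑ᶠ a ∈ FacR (evt (k := k) t) f c,
        chi (nv (∏ i ∈ B, a i) (zp (evt (k := k) t) z))| ≤ C₁ * (1 + N') * √(cd F)) :
    |(∑ t : F, Sm f hf d e z t) - cd F / (2 * d * e)| ≤
      (Co d ×ˢ Co e).card * (C₁ * (1 + N') * √(cd F)) := by
  set nn : (Σ l : ℕ, (Fin l → ℕ)) × (Σ l : ℕ, (Fin l → ℕ)) → F → ℝ := fun j t =>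
    ((FacR (evt (k := k) t) f (Fin.append j.1.2 j.2.2)).ncard : ℝ) with hnn
  set cc : (Σ l : ℕ, (Fin l → ℕ)) × (Σ l : ℕ, (Fin l → ℕ)) → F → ℝ := fun j t =>
    ∑ᶠ a ∈ FacR (evt (k := k) t) f (Fin.append j.1.2 j.2.2),
      chi (nv (∏ i ∈ Finset.univ.map (Fin.castAddEmb j.2.1), a i) (zp (evt (k := k) t) z)) with hcc
  have hS : ∀ t : F, Sm f hf d e z t =
      ∑ j ∈ Co d ×ˢ Co e, wt j.1.1 * wt j.2.1 * ((nn j t - cc j t) / 2) := by
    intro t
    unfold Sm
    refine Finset.sum_congr rfl fun j _ => ?_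
    congr 1
    have e1 : nn j t = ∑ x ∈ (tp_fin (hf.map (evt (k := k) t))
        (Fin.append j.1.2 j.2.2)).toFinset, (1 : ℝ) := by
      rw [Finset.sum_const, nsmul_eq_mul, mul_one, ← Set.ncard_eq_toFinset_card _
        (tp_fin (hf.map (evt (k := k) t)) (Fin.append j.1.2 j.2.2))]
      rfl
    have e2 : cc j t = ∑ x ∈ (tp_fin (hf.map (evt (k := k) t))
        (Fin.append j.1.2 j.2.2)).toFinset,
        chi (nv (∏ i, x (Fin.castAdd j.2.1 i)) (zp (evt (k := k) t) z)) := by
      rw [hcc]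
      dsimp only
      rw [← finsum_mem_eq_finite_toFinset_sum]
      refine finsum_mem_congr rfl fun x _ => ?_
      rw [Finset.prod_map]
      rfl
    rw [e1, e2, ← Finset.sum_sub_distrib, Finset.sum_div]
    rfl
  have hsum : ∑ t : F, Sm f hf d e z t = ∑ j ∈ Co d ×ˢ Co e, wt j.1.1 * wt j.2.1 *
      ((∑ t : F, nn j t - ∑ t : F, cc j t) / 2) := by
    rw [Finset.sum_congr rfl fun t _ => hS t, Finset.sum_comm]
    refine Finset.sum_congr rfl fun j _ => ?_
    rw [← Finset.sum_sub_distrib, ← Finset.mul_sum, Finset.sum_div]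
  have hmain : ∑ j ∈ Co d ×ˢ Co e, wt j.1.1 * wt j.2.1 * (cd F / 2) = cd F / (2 * d * e) := by
    rw [← Finset.sum_mul]
    have e1 : ∑ j ∈ Co d ×ˢ Co e, wt j.1.1 * wt j.2.1 = (∑ i ∈ Co d, wt i.1) *
        ∑ i ∈ Co e, wt i.1 := by
      rw [Finset.sum_mul_sum, Finset.sum_product]
    rw [e1, comb2 hComb hd, comb2 hComb he]
    have : (d : ℝ) ≠ 0 := by
      have : (1 : ℝ) ≤ d := by exact_mod_cast hd
      linarith
    have : (e : ℝ) ≠ 0 := by
      have : (1 : ℝ) ≤ e := by exact_mod_cast he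
      linarith
    field_simp
  rw [hsum, ← hmain, ← Finset.sum_sub_distrib]
  refine (Finset.abs_sum_le_sum_abs _ _).trans ?_
  have hj : ∀ j ∈ Co d ×ˢ Co e, |wt j.1.1 * wt j.2.1 * ((∑ t : F, nn j t - ∑ t : F, cc j t) / 2) -
      wt j.1.1 * wt j.2.1 * (cd F / 2)| ≤ C₁ * (1 + N') * √(cd F) := by
    intro j hj
    rw [Finset.mem_product, mem_Co, mem_Co] at hj
    obtain ⟨⟨⟨h3, -⟩, h4, h5⟩, ⟨h6, -⟩, h7, h8⟩ := hj
    have hc1 : ∀ i, 1 ≤ Fin.append j.1.2 j.2.2 i := by
      intro i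
      refine Fin.addCases (fun i => ?_) (fun i => ?_) i
      · rw [Fin.append_left]; exact h4 i
      · rw [Fin.append_right]; exact h7 i
    have hc2 : ∑ i, Fin.append j.1.2 j.2.2 i = 2 * g + 1 := by
      rw [Fin.sum_univ_add]
      simp only [Fin.append_left, Fin.append_right]
      rw [h5, h8, hde]
    have e1 := h1 _ _ hc1 hc2
    have e2 := h2 _ _ hc1 hc2 (Finset.univ.map (Fin.castAddEmb j.2.1)) (by
      rw [Finset.map_nonempty]
      exact ⟨⟨0, by omega⟩, Finset.mem_univ _⟩) (by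
      rw [Finset.sum_map]
      have : ∀ i, Fin.append j.1.2 j.2.2 (Fin.castAddEmb j.2.1 i) = j.1.2 i := fun i =>
        Fin.append_left _ _ i
      rw [Finset.sum_congr rfl fun i _ => this i, h5]
      exact hev)
    have e3 : |∑ t : F, nn j t - cd F| ≤ C₁ * (1 + N') * √(cd F) := by
      refine e1.trans (mul_le_mul_of_nonneg_right ?_ (Real.sqrt_nonneg _))
      have : (0 : ℝ) ≤ (C₁ : ℝ) * N' := by positivity
      linarith
    have e4 : |∑ t : F, cc j t| ≤ C₁ * (1 + N') * √(cd F) := e2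
    have e5 := abs_wt h3
    have e6 := abs_wt h6
    have e7 : wt j.1.1 * wt j.2.1 * ((∑ t : F, nn j t - ∑ t : F, cc j t) / 2) -
      wt j.1.1 * wt j.2.1 * (cd F / 2) = (wt j.1.1 * wt j.2.1) *
        (((∑ t : F, nn j t - cd F) - ∑ t : F, cc j t) / 2) := by ring
    rw [e7, abs_mul, abs_mul]
    have e8 : |((∑ t : F, nn j t - cd F) - ∑ t : F, cc j t) / 2| ≤ C₁ * (1 + N') * √(cd F) := by
      rw [abs_le] at e3 e4 ⊢
      constructor <;> linarith
    calc |wt j.1.1| * |wt j.2.1| * _ ≤ 1 * 1 * (C₁ * (1 + N') * √(cd F)) := by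
          refine mul_le_mul (mul_le_mul e5 e6 (abs_nonneg _) zero_le_one) e8 (abs_nonneg _)
            (by norm_num)
      _ = _ := by ring
  refine (Finset.sum_le_sum hj).trans (le_of_eq ?_)
  rw [Finset.sum_const, nsmul_eq_mul]

/-- **KILL**. -/
theorem kill (hW : P_W) (hStk : P_STK) (hDic : P_DIC) (hComb : P_COMB) : P_KILL := by
  intro k _ _ g N r f hf hfull
  obtain ⟨C₁, hW⟩ := hW k g N r f hf hfull
  haveI := Fintype.ofFinite k
  have hg : 1 ≤ g := hf.g1
  have hmon : f.Monic := hf.fam.ht.mon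
  have hdeg : f.natDegree = 2 * g + 1 := hf.fam.ht.deg
  have hdsc : dsc g f ≠ 0 := hf.fam.sq.ne_zero
  obtain ⟨e, he1, he2⟩ : ∃ e : ℕ, 1 ≤ e ∧ 2 + e = 2 * g + 1 := ⟨2 * g - 1, by omega, by omega⟩
  have hdeg' : f.natDegree = 2 + e := by omega
  have hne : 2 ≠ e := by omega
  set dd : ℕ := (dsc g f).natDegree with hdd
  set K₀ : ℕ := (Co 2 ×ˢ Co e).card with hK₀
  set M₁ : ℕ := K₀ * (2 ^ (2 + e)) ^ (2 + e) with hM₁
  have heR : (1 : ℝ) ≤ e := by exact_mod_cast he1
  refine ⟨1 / (4 * e), K₀ * C₁ + M₁ * (2 + dd + (2 * g + 1 + 2 * g) * (cdg f + 1)), by positivity, ?_⟩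
  intro K L O _ _ _ _ _ _ _ _ _ _ _ _ _ _ θ hgen α z N' hα hsq hnsq hcrd hz m hm
  obtain ⟨F, _, _, _, hfr, hcd, hsum, hfew⟩ := trs k m hm
  have hnz0 : nz f z ≠ 0 := nz_ne hgen hdsc hα hcrd
  have hnzd := nz_deg f z N' hz
  -- the sum over all `t`
  have hA : |(∑ t : F, Sm f hmon 2 e z t) - cd F / (2 * (2 : ℕ) * e)| ≤
      K₀ * (C₁ * (1 + N') * √(cd F)) := by
    refine sum_Sm (g := g) hmon hComb (by norm_num) he1 he2 (by decide) C₁ z N' ?_ ?_
    · intro l c hc1 hc2
      exact (hW l c hc1 hc2).1 F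
    · intro l c hc1 hc2 B hB1 hB2
      have h1 := (hW l c hc1 hc2).2.2 B hB1 hB2 K L θ hgen α z N' hα hsq hnsq hcrd hz 1 one_ne_zero F
      have h2 : ∀ t : F, chi (aeval t (1 : k[X])) = 1 := by
        intro t
        rw [map_one]
        unfold chi
        rw [map_one]
        norm_num
      simp only [h2, one_mul, natDegree_one, Nat.cast_zero, add_zero] at h1
      exact h1
  -- pointwise
  set cond : k[X] → Prop := fun Q => ¬ Q ∣ dsc g f ∧ nr O Q = 2 ∧ ¬ Tr O Q α with hcond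
  set φ : k[X] → ℝ := fun Q => if cond Q then 1 else 0 with hφ
  have hφ0 : ∀ Q, 0 ≤ φ Q := by
    intro Q
    rw [hφ]; dsimp only; split_ifs <;> norm_num
  set G : F → Prop := fun t => (minpoly k t).natDegree = m ∧
    aeval t (dsc g f) ≠ 0 ∧ aeval t (nz f z) ≠ 0 with hG
  have hpt : ∀ t : F, Sm f hmon 2 e z t ≤
      (if (minpoly k t).natDegree = m then φ (minpoly k t) else 0) + (if G t then 0 else (M₁ : ℝ)) := by
    intro t
    by_cases hGt : G t
    · rw [if_pos hGt, add_zero, if_pos hGt.1]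
      obtain ⟨hdm, hdt, hnt⟩ := hGt
      obtain ⟨-, hsqf, -⟩ := hStk k F g N r f t hf hdt
      have hpm : (f.map (evt (k := k) t)).Monic := hmon.map _
      have hpd : (f.map (evt (k := k) t)).natDegree = 2 + e := by rw [hmon.natDegree_map, hdeg']
      have h1 : Sm f hmon 2 e z t = ∑ a ∈ Dd (f.map (evt (k := k) t)) hpm 2,
          (if Irreducible a ∧ Irreducible (f.map (evt (k := k) t) / a) then psi z t a else 0) :=
        (two_irr hComb hpm hsqf (by norm_num) he1 hpd (psi z t)).symm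
      rw [h1]
      by_cases hex : ∃ a ∈ Dd (f.map (evt (k := k) t)) hpm 2, Irreducible a ∧
          Irreducible (f.map (evt (k := k) t) / a)
      · obtain ⟨a, ha, hai, hbi⟩ := hex
        rw [Finset.sum_eq_single_of_mem a ha]
        · rw [if_pos ⟨hai, hbi⟩]
          by_cases hTr : Tr O (minpoly k t) α
          · have hnd : ¬ minpoly k t ∣ dsc g f := fun h => hdt ((aeval_zero_iff t _).2 h)
            obtain ⟨-, -, -, hd⟩ := hDic k K L O g N r f θ hf hgen F t (by rw [hdm, hfr]) hnd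
            obtain ⟨-, hd1, -⟩ := hd α z hα hsq hcrd (nv_nz hdeg z t hnt)
            have ha' := mem_Dd.1 ha
            have h3 := hd1 hTr a ⟨ha'.1.1, ha'.1.2, by rw [ha'.2]; decide⟩
            have h4 : psi z t a = 0 := by
              unfold psi
              rw [h3]
              norm_num
            rw [h4]
            exact hφ0 _
          · have hnd : ¬ minpoly k t ∣ dsc g f := fun h => hdt ((aeval_zero_iff t _).2 h)
            obtain ⟨hnr, -, -, -⟩ := hDic k K L O g N r f θ hf hgen F t (by rw [hdm, hfr]) hnd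
            have ha' := mem_Dd.1 ha
            have hnf : nf f t = 2 := by
              unfold nf
              have h5 := card_nf_two hai hbi
              rw [div_spec ha'.1.1 ha'.1.2] at h5
              exact h5
            have hc : cond (minpoly k t) := ⟨hnd, by rw [hnr, hnf], hTr⟩
            rw [hφ]
            dsimp only
            rw [if_pos hc]
            exact (abs_psi z t a).2
        · intro a' ha' hne'
          rw [if_neg]
          rintro ⟨h3, -⟩
          exact hne' (uniq hpm hne hpd ha ha' hai hbi h3)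
      · push Not at hex
        rw [Finset.sum_eq_zero]
        · exact hφ0 _
        · intro a ha
          rw [if_neg]
          rintro ⟨h3, h4⟩
          exact hex a ha h3 h4
    · rw [if_neg hGt]
      have h1 : (0 : ℝ) ≤ (if (minpoly k t).natDegree = m then φ (minpoly k t) else 0) := by
        split_ifs
        · exact hφ0 _
        · exact le_refl _
      have h2 := (le_abs_self _).trans (abs_Sm f hmon hdeg' z t)
      linarith
  have hsum2 : ∑ t : F, Sm f hmon 2 e z t ≤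
      (m : ℝ) * ∑ Q ∈ irrD k m, φ Q + M₁ * ((Finset.univ.filter fun t : F => ¬ G t).card : ℝ) := by
    refine (Finset.sum_le_sum fun t _ => hpt t).trans (le_of_eq ?_)
    rw [Finset.sum_add_distrib, hsum φ, ← Finset.sum_filter]
    congr 1
    rw [Finset.sum_ite, Finset.sum_const_zero, zero_add, Finset.sum_const, nsmul_eq_mul, mul_comm]
  have hbad : ((Finset.univ.filter fun t : F => ¬ G t).card : ℝ) ≤
      2 * √(cd F) + dd + (2 * g + 1 + 2 * g) * (cdg f + N') := by
    have h1 : (Finset.univ.filter fun t : F => ¬ G t) ⊆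
        (Finset.univ.filter fun t : F => (minpoly k t).natDegree ≠ m) ∪
        ((Finset.univ.filter fun t : F => aeval t (dsc g f) = 0) ∪
        (Finset.univ.filter fun t : F => aeval t (nz f z) = 0)) := by
      intro t ht
      rw [Finset.mem_filter] at ht
      rw [Finset.mem_union, Finset.mem_union, Finset.mem_filter, Finset.mem_filter,
        Finset.mem_filter]
      by_contra hcon
      push Not at hcon
      obtain ⟨h1, h2, h3⟩ := hcon
      exact ht.2 ⟨h1 (Finset.mem_univ _), h2 (Finset.mem_univ _), h3 (Finset.mem_univ _)⟩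
    have h2 := (Finset.card_le_card h1).trans ((Finset.card_union_le _ _).trans
      (add_le_add le_rfl (Finset.card_union_le _ _)))
    have h3 : (Finset.univ.filter fun t : F => aeval t (dsc g f) = 0).card ≤ dd :=
      card_zero_le hdsc
    have h4 : (Finset.univ.filter fun t : F => aeval t (nz f z) = 0).card ≤
        (2 * g + 1 + 2 * g) * (cdg f + N') := (card_zero_le hnz0).trans hnzd
    have h5 : ((Finset.univ.filter fun t : F => ¬ G t).card : ℝ) ≤
        ((Finset.univ.filter fun t : F => (minpoly k t).natDegree ≠ m).card : ℝ) +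
          (dd + (2 * g + 1 + 2 * g) * (cdg f + N')) := by
      exact_mod_cast h2.trans (add_le_add le_rfl (add_le_add h3 h4))
    linarith
  have hφcard : ∑ Q ∈ irrD k m, φ Q = (((irrD k m).filter fun Q => cond Q).card : ℝ) := by
    rw [hφ]
    rw [Finset.sum_ite, Finset.sum_const_zero, add_zero, Finset.sum_const, nsmul_eq_mul, mul_one]
  rw [hφcard] at hsum2
  suffices hsuf : (1 / (4 * (e : ℝ))) * (Nat.card k : ℝ) ^ m / m -
      ((K₀ * C₁ + M₁ * (2 + dd + (2 * g + 1 + 2 * g) * (cdg f + 1)) : ℕ) : ℝ) * (1 + N') *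
        √((Nat.card k : ℝ) ^ m) ≤ (((irrD k m).filter fun Q => cond Q).card : ℝ) by
    convert hsuf
  set Nc : ℝ := (((irrD k m).filter fun Q => cond Q).card : ℝ) with hNc
  rw [← hcd]
  have hs1' : 1 ≤ √(cd F) := one_le_sqrt_cd
  have hcdp : 0 ≤ cd F := by unfold cd; positivity
  have hm1 : (1 : ℝ) ≤ m := by exact_mod_cast hm
  have hkey : (1 / (4 * (e : ℝ))) * cd F -
      (K₀ * C₁ + M₁ * (2 + dd + (2 * g + 1 + 2 * g) * (cdg f + 1))) * (1 + N') * √(cd F) ≤
      m * Nc := by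
    have e1 := (abs_le.1 hA).1
    have e2 : cd F / (2 * (2 : ℕ) * e) = (1 / (4 * (e : ℝ))) * cd F := by
      push_cast
      field_simp
      ring
    rw [e2] at e1
    have e3 : (M₁ : ℝ) * ((Finset.univ.filter fun t : F => ¬ G t).card : ℝ) ≤
        M₁ * (2 * √(cd F) + dd + (2 * g + 1 + 2 * g) * (cdg f + N')) :=
      mul_le_mul_of_nonneg_left hbad (by positivity)
    have e4 : (2 * √(cd F) + dd + (2 * g + 1 + 2 * g) * (cdg f + N')) ≤
        (2 + dd + (2 * g + 1 + 2 * g) * (cdg f + 1)) * (1 + N') * √(cd F) := by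
      have a1 : (0 : ℝ) ≤ (dd : ℝ) := by positivity
      have a2 : (0 : ℝ) ≤ (g : ℝ) := by positivity
      have a3 : (0 : ℝ) ≤ (N' : ℝ) := by positivity
      have a4 : (0 : ℝ) ≤ (cdg f : ℝ) := by positivity
      have b1 : (2 : ℝ) * √(cd F) ≤ 2 * (1 + N') * √(cd F) := by
        refine mul_le_mul_of_nonneg_right ?_ (by linarith)
        linarith
      have b2 : (dd : ℝ) ≤ dd * (1 + N') * √(cd F) := by
        calc (dd : ℝ) = dd * 1 * 1 := by ring
          _ ≤ dd * (1 + N') * √(cd F) := by gcongr; linarith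
      have b3 : (2 * g + 1 + 2 * g : ℝ) * (cdg f + N') ≤
          (2 * g + 1 + 2 * g) * (cdg f + 1) * (1 + N') * √(cd F) := by
        calc (2 * g + 1 + 2 * g : ℝ) * (cdg f + N') ≤
            (2 * g + 1 + 2 * g) * ((cdg f + 1) * (1 + N')) * 1 := by
              rw [mul_one]
              refine mul_le_mul_of_nonneg_left ?_ (by positivity)
              nlinarith [mul_nonneg a4 a3]
          _ ≤ (2 * g + 1 + 2 * g) * ((cdg f + 1) * (1 + N')) * √(cd F) := by
              refine mul_le_mul_of_nonneg_left hs1' (by positivity)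
          _ = _ := by ring
      linarith
    have e5 : (M₁ : ℝ) * (2 * √(cd F) + dd + (2 * g + 1 + 2 * g) * (cdg f + N')) ≤
        M₁ * ((2 + dd + (2 * g + 1 + 2 * g) * (cdg f + 1)) * (1 + N') * √(cd F)) :=
      mul_le_mul_of_nonneg_left e4 (by positivity)
    linarith
  have h1 : (1 / (4 * (e : ℝ))) * cd F / m ≤ Nc +
      (K₀ * C₁ + M₁ * (2 + dd + (2 * g + 1 + 2 * g) * (cdg f + 1))) * (1 + N') * √(cd F) := by
    rw [div_le_iff₀ (by linarith)]
    have h2 : (0 : ℝ) ≤ (K₀ * C₁ + M₁ * (2 + dd + (2 * g + 1 + 2 * g) * (cdg f + 1))) *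
        (1 + N') * √(cd F) := by
      positivity
    nlinarith
  push_cast
  linarith

end Run7.h908.TG
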