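import Pool.Agent.Run7.h908.TG.KILL

/-!
# KILL2: two-sided counts of the primes `Q` with exactly two primes over them

Project PRL (helper286); helper908.
-/

set_option autoImplicit false
set_option linter.all false

open Polynomial IsDedekindDomain
open scoped Classical

namespace Run7.h908.TG

open Run7.h784.TG (P_COMB P_W P_STK P_DIC P_KILL FacR nv zp evt Fm nf evd nr Full)
open Pool.Agent.N352.PJ (IsGen Crd dsc)
open Pool.Agent.N874.PP (Ov Ev Sq1)
open Run7.h875.TS (chi cd irrD Tr)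
open Run7.h437.TS (trs card_zero_le one_le_sqrt_cd abs_chi_le aeval_zero_iff)

section pt

variable {F : Type} [Field F]

/-- Sum over the factorisations into an irreducible factor of even degree and another one. -/
noncomputable def E2 (p : F[X]) (hp : p.Monic) (g : ℕ) (ψ : F[X] → ℝ) : ℝ :=
  ∑ i ∈ Finset.Icc 1 g, ∑ a ∈ Dd p hp (2 * i),
    if Irreducible a ∧ Irreducible (p / a) then ψ a else 0

theorem E2_eq {p : F[X]} (hp : p.Monic) {g : ℕ} (hdeg : p.natDegree = 2 * g + 1) (ψ : F[X] → ℝ)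
    {a : F[X]} (ha : a.Monic) (hd : a ∣ p) (hev : Even a.natDegree) (h1 : Irreducible a)
    (h2 : Irreducible (p / a)) : E2 p hp g ψ = ψ a := by
  obtain ⟨i, hi⟩ := hev
  have hi' : a.natDegree = 2 * i := by omega
  have hpos := h1.natDegree_pos
  have hbd := div_deg hp ha hd
  have hmem : i ∈ Finset.Icc 1 g := Finset.mem_Icc.2 ⟨by omega, by omega⟩
  have haD : a ∈ Dd p hp (2 * i) := mem_Dd.2 ⟨⟨ha, hd⟩, hi'⟩
  have hbm := div_monic hp ha hd
  unfold E2
  rw [Finset.sum_eq_single_of_mem i hmem, Finset.sum_eq_single_of_mem a haD, if_pos ⟨h1, h2⟩]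
  · intro a' ha' hne
    rw [if_neg]
    rintro ⟨h3, -⟩
    exact hne (uniq hp (d := 2 * i) (e := 2 * g + 1 - 2 * i) (by omega) (by omega) haD ha' h1 h2 h3)
  · intro i' _ hne
    refine Finset.sum_eq_zero fun a' ha' => ?_
    rw [if_neg]
    rintro ⟨h3, -⟩
    rw [mem_Dd] at ha'
    have h4 : a' ∣ a * (p / a) := by rw [div_spec ha hd]; exact ha'.1.2
    rcases h3.prime.dvd_or_dvd h4 with h5 | h5
    · have := congrArg natDegree (eq_of_monic_of_associated ha'.1.1 ha
        ((h3.dvd_irreducible_iff_associated h1).1 h5))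
      omega
    · have := congrArg natDegree (eq_of_monic_of_associated ha'.1.1 hbm
        ((h3.dvd_irreducible_iff_associated h2).1 h5))
      omega

theorem E2_zero {p : F[X]} (hp : p.Monic) {g : ℕ} (ψ : F[X] → ℝ)
    (hnf : Multiset.card (UniqueFactorizationMonoid.normalizedFactors p) ≠ 2) :
    E2 p hp g ψ = 0 := by
  unfold E2
  refine Finset.sum_eq_zero fun i _ => Finset.sum_eq_zero fun a ha => ?_
  rw [if_neg]
  rintro ⟨h1, h2⟩
  rw [mem_Dd] at ha
  apply hnf
  have h5 := card_nf_two h1 h2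
  rwa [div_spec ha.1.1 ha.1.2] at h5

theorem two_struct {p : F[X]} (hp : p.Monic) {g : ℕ} (hdeg : p.natDegree = 2 * g + 1)
    (hnf : Multiset.card (UniqueFactorizationMonoid.normalizedFactors p) = 2) :
    ∃ a : F[X], a.Monic ∧ a ∣ p ∧ Even a.natDegree ∧ Irreducible a ∧ Irreducible (p / a) := by
  obtain ⟨a, b, hab⟩ := Multiset.card_eq_two.1 hnf
  have hprod := UniqueFactorizationMonoid.prod_normalizedFactors_eq hp.ne_zero
  rw [hp.normalize_eq_self, hab] at hprod
  have hab' : a * b = p := by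
    rw [← hprod]; simp
  have ha : a ∈ UniqueFactorizationMonoid.normalizedFactors p := by rw [hab]; simp
  have hb : b ∈ UniqueFactorizationMonoid.normalizedFactors p := by rw [hab]; simp
  have ia := UniqueFactorizationMonoid.irreducible_of_normalized_factor a ha
  have ib := UniqueFactorizationMonoid.irreducible_of_normalized_factor b hb
  have na := UniqueFactorizationMonoid.normalize_normalized_factor a ha
  have nb := UniqueFactorizationMonoid.normalize_normalized_factor b hb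
  have ma : a.Monic := by rw [← na]; exact Polynomial.monic_normalize ia.ne_zero
  have mb : b.Monic := by rw [← nb]; exact Polynomial.monic_normalize ib.ne_zero
  have hdd : a.natDegree + b.natDegree = 2 * g + 1 := by
    rw [← ma.natDegree_mul mb, hab', hdeg]
  have key : ∀ u v : F[X], u.Monic → u * v = p → p / u = v := by
    intro u v hu huv
    rw [← huv]
    exact mul_div_cancel_left₀ v hu.ne_zero
  rcases Nat.even_or_odd a.natDegree with h | h
  · exact ⟨a, ma, ⟨b, hab'.symm⟩, h, ia, by rw [key a b ma hab']; exact ib⟩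
  · refine ⟨b, mb, ⟨a, by rw [mul_comm, hab']⟩, ?_, ib, by rw [key b a mb (by rw [mul_comm, hab'])]; exact ia⟩
    obtain ⟨i, hi⟩ := h
    exact ⟨g - i, by omega⟩

end pt

/-- The constant: the density of the primes with two primes over them. -/
noncomputable def c2 (g : ℕ) : ℝ := ∑ i ∈ Finset.Icc 1 g, 1 / ((2 * i : ℕ) * (2 * g + 1 - 2 * i : ℕ) : ℝ)

theorem c2_pos {g : ℕ} (hg : 1 ≤ g) : 0 < c2 g := by
  unfold c2
  refine Finset.sum_pos (fun i hi => ?_) ⟨1, Finset.mem_Icc.2 ⟨le_rfl, hg⟩⟩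
  obtain ⟨h1, h2⟩ := Finset.mem_Icc.1 hi
  have h3 : 1 ≤ 2 * g + 1 - 2 * i := by omega
  have h4 : 1 ≤ 2 * i := by omega
  positivity

section sums

variable {k : Type} [Field k]

/-- The sum of the weights. -/
noncomputable def S1 {F : Type} [Field F] [Fintype F] [Algebra k F] (f : k[X][X]) (hf : f.Monic)
    (d e : ℕ) (t : F) : ℝ :=
  ∑ j ∈ Co d ×ˢ Co e, wt j.1.1 * wt j.2.1 *
    ((FacR (evt (k := k) t) f (Fin.append j.1.2 j.2.2)).ncard : ℝ)

theorem S1_eq {F : Type} [Field F] [Fintype F] [Algebra k F] (f : k[X][X]) (hf : f.Monic)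
    (d e : ℕ) (t : F) : S1 f hf d e t = ∑ j ∈ Co d ×ˢ Co e, wt j.1.1 * wt j.2.1 *
    ∑ x ∈ (tp_fin (hf.map (evt (k := k) t)) (Fin.append j.1.2 j.2.2)).toFinset, (1 : ℝ) := by
  unfold S1
  refine Finset.sum_congr rfl fun j _ => ?_
  congr 1
  rw [Finset.sum_const, nsmul_eq_mul, mul_one, ← Set.ncard_eq_toFinset_card _
    (tp_fin (hf.map (evt (k := k) t)) (Fin.append j.1.2 j.2.2))]
  rfl

theorem abs_S1 {F : Type} [Field F] [Fintype F] [Algebra k F] (f : k[X][X]) (hf : f.Monic)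
    {d e : ℕ} (hde : f.natDegree = d + e) (t : F) :
    |S1 f hf d e t| ≤ (((Co d ×ˢ Co e).card * (2 ^ (d + e)) ^ (d + e) : ℕ) : ℝ) := by
  unfold S1
  refine (Finset.abs_sum_le_sum_abs _ _).trans ?_
  have h1 : ∀ j ∈ Co d ×ˢ Co e, |wt j.1.1 * wt j.2.1 *
      ((FacR (evt (k := k) t) f (Fin.append j.1.2 j.2.2)).ncard : ℝ)| ≤
        (((2 ^ (d + e)) ^ (d + e) : ℕ) : ℝ) := by
    intro j hj
    rw [Finset.mem_product, mem_Co, mem_Co] at hj
    have e1 := abs_wt hj.1.1.1
    have e2 := abs_wt hj.2.1.1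
    have e3 : |((FacR (evt (k := k) t) f (Fin.append j.1.2 j.2.2)).ncard : ℝ)| ≤
        (((2 ^ (d + e)) ^ (d + e) : ℕ) : ℝ) := by
      rw [abs_of_nonneg (by positivity)]
      have h4 := (tp_aux (hf.map (evt (k := k) t)) (Fin.append j.1.2 j.2.2)).2
      rw [hf.natDegree_map, hde] at h4
      exact_mod_cast h4.trans (Nat.pow_le_pow_right (by positivity) (by omega))
    rw [abs_mul, abs_mul]
    calc |wt j.1.1| * |wt j.2.1| * _ ≤ 1 * 1 * (((2 ^ (d + e)) ^ (d + e) : ℕ) : ℝ) := by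
          refine mul_le_mul (mul_le_mul e1 e2 (abs_nonneg _) zero_le_one) e3 (abs_nonneg _)
            (by norm_num)
      _ = _ := by ring
  refine (Finset.sum_le_sum h1).trans (le_of_eq ?_)
  rw [Finset.sum_const, nsmul_eq_mul]
  push_cast
  ring

theorem sum_S1 {g : ℕ} {f : k[X][X]} (hf : f.Monic) (hComb : P_COMB)
    {d e : ℕ} (hd : 1 ≤ d) (he : 1 ≤ e) (hde : d + e = 2 * g + 1) (C₁ : ℕ)
    {F : Type} [Field F] [Fintype F] [Algebra k F]
    (h1 : ∀ (l : ℕ) (c : Fin l → ℕ), (∀ i, 1 ≤ c i) → ∑ i, c i = 2 * g + 1 →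
      |(∑ t : F, ((FacR (evt (k := k) t) f c).ncard : ℝ)) - cd F| ≤ C₁ * √(cd F)) :
    |(∑ t : F, S1 f hf d e t) - cd F / (d * e)| ≤ (Co d ×ˢ Co e).card * (C₁ * √(cd F)) := by
  set nn : (Σ l : ℕ, (Fin l → ℕ)) × (Σ l : ℕ, (Fin l → ℕ)) → F → ℝ := fun j t =>
    ((FacR (evt (k := k) t) f (Fin.append j.1.2 j.2.2)).ncard : ℝ) with hnn
  have hsum : ∑ t : F, S1 f hf d e t = ∑ j ∈ Co d ×ˢ Co e, wt j.1.1 * wt j.2.1 *
      (∑ t : F, nn j t) := by
    unfold S1
    rw [Finset.sum_comm]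
    refine Finset.sum_congr rfl fun j _ => ?_
    rw [← Finset.mul_sum]
  have hmain : ∑ j ∈ Co d ×ˢ Co e, wt j.1.1 * wt j.2.1 * (cd F) = cd F / (d * e) := by
    rw [← Finset.sum_mul]
    have e1 : ∑ j ∈ Co d ×ˢ Co e, wt j.1.1 * wt j.2.1 = (∑ i ∈ Co d, wt i.1) *
        ∑ i ∈ Co e, wt i.1 := by
      rw [Finset.sum_mul_sum, Finset.sum_product]
    rw [e1, comb2 hComb hd, comb2 hComb he]
    have : (d : ℝ) ≠ 0 := by
      have : (1 : ℝ) ≤ d := by exact_mod_cast hd
      linarith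
    have : (e : ℝ) ≠ 0 := by
      have : (1 : ℝ) ≤ e := by exact_mod_cast he
      linarith
    field_simp
  rw [hsum, ← hmain, ← Finset.sum_sub_distrib]
  refine (Finset.abs_sum_le_sum_abs _ _).trans ?_
  have hj : ∀ j ∈ Co d ×ˢ Co e, |wt j.1.1 * wt j.2.1 * (∑ t : F, nn j t) -
      wt j.1.1 * wt j.2.1 * (cd F)| ≤ C₁ * √(cd F) := by
    intro j hj
    rw [Finset.mem_product, mem_Co, mem_Co] at hj
    obtain ⟨⟨⟨h3, -⟩, h4, h5⟩, ⟨h6, -⟩, h7, h8⟩ := hj
    have hc1 : ∀ i, 1 ≤ Fin.append j.1.2 j.2.2 i := by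
      intro i
      refine Fin.addCases (fun i => ?_) (fun i => ?_) i
      · rw [Fin.append_left]; exact h4 i
      · rw [Fin.append_right]; exact h7 i
    have hc2 : ∑ i, Fin.append j.1.2 j.2.2 i = 2 * g + 1 := by
      rw [Fin.sum_univ_add]
      simp only [Fin.append_left, Fin.append_right]
      rw [h5, h8, hde]
    have e1 := h1 _ _ hc1 hc2
    have e5 := abs_wt h3
    have e6 := abs_wt h6
    have e7 : wt j.1.1 * wt j.2.1 * (∑ t : F, nn j t) -
      wt j.1.1 * wt j.2.1 * (cd F) = (wt j.1.1 * wt j.2.1) *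
        (∑ t : F, nn j t - cd F) := by ring
    rw [e7, abs_mul, abs_mul]
    calc |wt j.1.1| * |wt j.2.1| * _ ≤ 1 * 1 * (C₁ * √(cd F)) := by
          refine mul_le_mul (mul_le_mul e5 e6 (abs_nonneg _) zero_le_one) e1 (abs_nonneg _)
            (by norm_num)
      _ = _ := by ring
  refine (Finset.sum_le_sum hj).trans (le_of_eq ?_)
  rw [Finset.sum_const, nsmul_eq_mul]

end sums

/-- **KILL2, part B** -/
def P_NR2 : Prop := ∀ (k : Type) [Field k] [Finite k] (g N : ℕ) (r : k[X]) (f : k[X][X]),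
  Fm g N r f → Full f → ∃ C₀ : ℕ,
    ∀ (K L O : Type) [Field K] [Algebra k[X] K] [IsFractionRing k[X] K]
    [Field L] [Algebra K L] [Algebra k[X] L] [IsScalarTower k[X] K L] [CommRing O]
    [IsDedekindDomain O] [Algebra O L] [IsFractionRing O L] [Algebra k[X] O]
    [IsScalarTower k[X] O L] [IsIntegralClosure O k[X] L] (θ : L), IsGen g K f θ →
    ∀ m : ℕ, 0 < m →
      |(m : ℝ) * (((irrD k m).filter fun Q => ¬ Q ∣ dsc g f ∧ nr O Q = 2).card : ℝ) -
          c2 g * (Nat.card k : ℝ) ^ m| ≤ C₀ * √((Nat.card k : ℝ) ^ m)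

/-- **KILL2, part A** -/
def P_KILL2 : Prop := ∀ (k : Type) [Field k] [Finite k] (g N : ℕ) (r : k[X]) (f : k[X][X]),
  Fm g N r f → Full f → ∃ C₀ : ℕ,
    ∀ (K L O : Type) [Field K] [Algebra k[X] K] [IsFractionRing k[X] K]
    [Field L] [Algebra K L] [Algebra k[X] L] [IsScalarTower k[X] K L] [CommRing O]
    [IsDedekindDomain O] [Algebra O L] [IsFractionRing O L] [Algebra k[X] O]
    [IsScalarTower k[X] O L] [IsIntegralClosure O k[X] L] (θ : L), IsGen g K f θ →
    ∀ (α : L) (z : Fin (2 * g + 1) → k[X]) (N' : ℕ), α ≠ 0 → IsSquare (Algebra.norm K α) →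
      ¬ IsSquare α → Crd g θ z α → (∀ i, (z i).natDegree ≤ N') → ∀ m : ℕ, 0 < m →
      |(m : ℝ) * (((irrD k m).filter fun Q => ¬ Q ∣ dsc g f ∧ nr O Q = 2 ∧ ¬ Tr O Q α).card : ℝ) -
          c2 g / 2 * (Nat.card k : ℝ) ^ m| ≤ C₀ * (1 + N') * √((Nat.card k : ℝ) ^ m)

/-- The general comparison. -/
theorem compare {k : Type} [Field k] [Finite k] (F : Type) [Field F] [Fintype F] [Algebra k F]
    (m : ℕ) (cond : k[X] → Prop) (G : F → Prop) (X : F → ℝ) (M B : ℝ) (hM : 0 ≤ M)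
    (hsum : ∀ φ : k[X] → ℝ, (m : ℝ) * ∑ Q ∈ irrD k m, φ Q =
      ∑ t ∈ Finset.univ.filter fun t : F => (minpoly k t).natDegree = m, φ (minpoly k t))
    (hG : ∀ t, G t → (minpoly k t).natDegree = m)
    (hgood1 : ∀ t, G t → cond (minpoly k t) → X t = 1)
    (hgood0 : ∀ t, G t → ¬ cond (minpoly k t) → X t = 0)
    (hbad : ∀ t, |X t| ≤ M) (hB : ∀ s : Finset F, (∀ t ∈ s, ¬ G t) → (s.card : ℝ) ≤ B) :
    |(m : ℝ) * (((irrD k m).filter fun Q => cond Q).card : ℝ) - ∑ t : F, X t| ≤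
      (M + 1) * B := by
  refine le_trans ?_ (mul_le_mul_of_nonneg_left (hB (Finset.univ.filter fun t : F => ¬ G t)
    (fun t ht => (Finset.mem_filter.1 ht).2)) (by linarith))
  set φ : k[X] → ℝ := fun Q => if cond Q then 1 else 0 with hφ
  have hφcard : ∑ Q ∈ irrD k m, φ Q = (((irrD k m).filter fun Q => cond Q).card : ℝ) := by
    rw [hφ]
    rw [Finset.sum_ite, Finset.sum_const_zero, add_zero, Finset.sum_const, nsmul_eq_mul, mul_one]
  have hφ0 : ∀ Q, 0 ≤ φ Q ∧ φ Q ≤ 1 := by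
    intro Q
    rw [hφ]; dsimp only; split_ifs <;> norm_num
  rw [← hφcard, hsum φ, Finset.sum_filter, ← Finset.sum_sub_distrib]
  refine (Finset.abs_sum_le_sum_abs _ _).trans ?_
  have hpt : ∀ t ∈ (Finset.univ : Finset F),
      |(if (minpoly k t).natDegree = m then φ (minpoly k t) else 0) - X t| ≤
        if G t then 0 else (M + 1) := by
    intro t _
    by_cases hGt : G t
    · rw [if_pos hGt, if_pos (hG t hGt), hφ]
      dsimp only
      by_cases hc : cond (minpoly k t)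
      · rw [hgood1 t hGt hc, if_pos hc, sub_self, abs_zero]
      · rw [hgood0 t hGt hc, if_neg hc, sub_self, abs_zero]
    · rw [if_neg hGt]
      have h1 := abs_le.1 (hbad t)
      have h2 := hφ0 (minpoly k t)
      rw [abs_le]
      split_ifs <;> constructor <;> linarith
  refine (Finset.sum_le_sum hpt).trans (le_of_eq ?_)
  rw [Finset.sum_ite, Finset.sum_const_zero, zero_add, Finset.sum_const, nsmul_eq_mul, mul_comm]

section bad

variable {k : Type} [Field k] [Finite k]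

theorem bad_card {F : Type} [Field F] [Fintype F] [Algebra k F] {m : ℕ} {u v : k[X]} (hu : u ≠ 0)
    (hv : v ≠ 0)
    (hfew : ((Finset.univ.filter fun t : F => (minpoly k t).natDegree ≠ m).card : ℝ) ≤
      2 * √(cd F)) (dd ee : ℕ) (h1 : u.natDegree ≤ dd) (h2 : v.natDegree ≤ ee) (s : Finset F)
    (hs : ∀ t ∈ s, ¬ ((minpoly k t).natDegree = m ∧ aeval t u ≠ 0 ∧ aeval t v ≠ 0)) :
    (s.card : ℝ) ≤ 2 * √(cd F) + dd + ee := by
  have h1' : s ⊆
      (Finset.univ.filter fun t : F => (minpoly k t).natDegree ≠ m) ∪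
      ((Finset.univ.filter fun t : F => aeval t u = 0) ∪
      (Finset.univ.filter fun t : F => aeval t v = 0)) := by
    intro t ht
    rw [Finset.mem_union, Finset.mem_union, Finset.mem_filter, Finset.mem_filter,
      Finset.mem_filter]
    by_contra hcon
    push Not at hcon
    obtain ⟨h1, h2, h3⟩ := hcon
    exact hs t ht ⟨h1 (Finset.mem_univ _), h2 (Finset.mem_univ _), h3 (Finset.mem_univ _)⟩
  have h2' := (Finset.card_le_card h1').trans ((Finset.card_union_le _ _).trans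
    (add_le_add le_rfl (Finset.card_union_le _ _)))
  have h3 : (Finset.univ.filter fun t : F => aeval t u = 0).card ≤ dd := (card_zero_le hu).trans h1
  have h4 : (Finset.univ.filter fun t : F => aeval t v = 0).card ≤ ee := (card_zero_le hv).trans h2
  have h5 : (s.card : ℝ) ≤
      ((Finset.univ.filter fun t : F => (minpoly k t).natDegree ≠ m).card : ℝ) + (dd + ee) := by
    exact_mod_cast h2'.trans (add_le_add le_rfl (add_le_add h3 h4))
  linarith

end bad

/-- The bound for the sums at one `t`. -/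
noncomputable def MM (g : ℕ) : ℕ := ∑ i ∈ Finset.Icc 1 g,
  (Co (2 * i) ×ˢ Co (2 * g + 1 - 2 * i)).card * (2 ^ (2 * g + 1)) ^ (2 * g + 1)

/-- The number of pairs of compositions. -/
noncomputable def KK (g : ℕ) : ℕ := ∑ i ∈ Finset.Icc 1 g,
  (Co (2 * i) ×ˢ Co (2 * g + 1 - 2 * i)).card

/-- **NR2**. -/
theorem nr2 (hW : P_W) (hStk : P_STK) (hDic : P_DIC) (hComb : P_COMB) : P_NR2 := by
  intro k _ _ g N r f hf hfull
  obtain ⟨C₁, hW⟩ := hW k g N r f hf hfull
  haveI := Fintype.ofFinite k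
  have hg : 1 ≤ g := hf.g1
  have hmon : f.Monic := hf.fam.ht.mon
  have hdeg : f.natDegree = 2 * g + 1 := hf.fam.ht.deg
  have hdsc : dsc g f ≠ 0 := hf.fam.sq.ne_zero
  set dd : ℕ := (dsc g f).natDegree with hdd
  refine ⟨(MM g + 1) * (2 + dd) + KK g * C₁, ?_⟩
  intro K L O _ _ _ _ _ _ _ _ _ _ _ _ _ _ θ hgen m hm
  obtain ⟨F, _, _, _, hfr, hcd, hsum, hfew⟩ := trs k m hm
  set X : F → ℝ := fun t => ∑ i ∈ Finset.Icc 1 g, S1 f hmon (2 * i) (2 * g + 1 - 2 * i) t with hX
  have hXE : ∀ t : F, aeval t (dsc g f) ≠ 0 →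
      X t = E2 (f.map (evt (k := k) t)) (hmon.map _) g (fun _ => 1) := by
    intro t hdt
    obtain ⟨-, hsqf, -⟩ := hStk k F g N r f t hf hdt
    rw [hX]
    unfold E2
    refine Finset.sum_congr rfl fun i hi => ?_
    obtain ⟨h1, h2⟩ := Finset.mem_Icc.1 hi
    rw [S1_eq, two_irr hComb (hmon.map _) hsqf (d := 2 * i) (e := 2 * g + 1 - 2 * i) (by omega)
      (by omega) (by rw [hmon.natDegree_map, hdeg]; omega) (fun _ => 1)]
  set G : F → Prop := fun t => (minpoly k t).natDegree = m ∧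
    aeval t (dsc g f) ≠ 0 ∧ aeval t (1 : k[X]) ≠ 0 with hG
  have hbase : ∀ t, G t → ((¬ minpoly k t ∣ dsc g f ∧ nr O (minpoly k t) = 2) → X t = 1) ∧
      (¬ (¬ minpoly k t ∣ dsc g f ∧ nr O (minpoly k t) = 2) → X t = 0) := by
    intro t hGt
    obtain ⟨hdm, hdt, -⟩ := hGt
    have hpm : (f.map (evt (k := k) t)).Monic := hmon.map _
    have hpd : (f.map (evt (k := k) t)).natDegree = 2 * g + 1 := by rw [hmon.natDegree_map, hdeg]
    have hnd : ¬ minpoly k t ∣ dsc g f := fun h => hdt ((aeval_zero_iff t _).2 h)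
    obtain ⟨hnr, -, -, -⟩ := hDic k K L O g N r f θ hf hgen F t (by rw [hdm, hfr]) hnd
    rw [hXE t hdt]
    by_cases hnf : nf f t = 2
    · obtain ⟨a, ha1, ha2, ha3, ha4, ha5⟩ := two_struct hpm hpd hnf
      rw [E2_eq hpm hpd _ ha1 ha2 ha3 ha4 ha5]
      exact ⟨fun _ => rfl, fun h => absurd ⟨hnd, by rw [hnr, hnf]⟩ h⟩
    · rw [E2_zero hpm _ hnf]
      refine ⟨?_, fun _ => rfl⟩
      rintro ⟨-, h⟩
      rw [hnr] at h
      exact absurd h hnf
  have hbad : ∀ t, |X t| ≤ (MM g : ℝ) := by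
    intro t
    rw [hX]
    dsimp only
    refine (Finset.abs_sum_le_sum_abs _ _).trans ?_
    unfold MM
    push_cast
    refine Finset.sum_le_sum fun i hi => ?_
    obtain ⟨h1, h2⟩ := Finset.mem_Icc.1 hi
    have h3 : 2 * i + (2 * g + 1 - 2 * i) = 2 * g + 1 := by omega
    have h4 := abs_S1 (k := k) f hmon (d := 2 * i) (e := 2 * g + 1 - 2 * i) (by omega) t
    rw [h3] at h4
    push_cast at h4
    exact h4
  have hM0 : (0 : ℝ) ≤ MM g := by positivity
  have hcmp := compare F m (fun Q => ¬ Q ∣ dsc g f ∧ nr O Q = 2) G X (MM g)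
    (2 * √(cd F) + dd + (0 : ℕ)) hM0 hsum (fun t h => h.1) (fun t h => (hbase t h).1)
    (fun t h => (hbase t h).2) hbad
    (bad_card (k := k) (F := F) (m := m) hdsc one_ne_zero hfew dd 0 le_rfl (by simp))
  have hs1' : 1 ≤ √(cd F) := one_le_sqrt_cd
  have htot : |∑ t : F, X t - c2 g * cd F| ≤ KK g * (C₁ * √(cd F)) := by
    have e1 : ∑ t : F, X t = ∑ i ∈ Finset.Icc 1 g, ∑ t : F, S1 f hmon (2 * i) (2 * g + 1 - 2 * i) t := by
      rw [hX, Finset.sum_comm]
    rw [e1]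
    unfold c2 KK
    rw [Finset.sum_mul, ← Finset.sum_sub_distrib]
    refine (Finset.abs_sum_le_sum_abs _ _).trans ?_
    push_cast
    rw [Finset.sum_mul]
    refine Finset.sum_le_sum fun i hi => ?_
    obtain ⟨h1, h2⟩ := Finset.mem_Icc.1 hi
    have h4 := sum_S1 (k := k) (g := g) hmon hComb (d := 2 * i) (e := 2 * g + 1 - 2 * i) (by omega)
      (by omega) (by omega) C₁ (F := F) (fun l c h1 h2 => (hW l c h1 h2).1 F)
    have h5 : 1 / ((2 * i : ℕ) * (2 * g + 1 - 2 * i : ℕ) : ℝ) * cd F =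
        cd F / (((2 * i : ℕ) : ℝ) * ((2 * g + 1 - 2 * i : ℕ) : ℝ)) := by ring
    push_cast at h4 h5 ⊢
    rw [h5]
    exact h4
  rw [← hcd]
  have h7 : ((MM g : ℝ) + 1) * (2 * √(cd F) + dd + (0 : ℕ)) ≤
      ((MM g : ℝ) + 1) * (2 + dd) * √(cd F) := by
    rw [mul_assoc]
    refine mul_le_mul_of_nonneg_left ?_ (by linarith)
    have : (dd : ℝ) ≤ dd * √(cd F) := by
      have a1 : (0 : ℝ) ≤ (dd : ℝ) := by positivity
      nlinarith
    push_cast
    linarith
  have h8 := hcmp.trans h7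
  have hgoal : ∀ A B Cc P Q : ℝ, |A - B| ≤ P → |B - Cc| ≤ Q → |A - Cc| ≤ P + Q := by
    intro A B Cc P Q h1 h2
    rw [abs_le] at h1 h2 ⊢
    constructor <;> linarith
  have h9 := hgoal _ _ _ _ _ h8 htot
  refine le_trans (le_of_eq ?_) (h9.trans (le_of_eq ?_))
  · congr!
  · push_cast; ring

/-- **KILL2**. -/
theorem kill2 (hW : P_W) (hStk : P_STK) (hDic : P_DIC) (hComb : P_COMB) : P_KILL2 := by
  intro k _ _ g N r f hf hfull
  obtain ⟨C₁, hW⟩ := hW k g N r f hf hfull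
  haveI := Fintype.ofFinite k
  have hg : 1 ≤ g := hf.g1
  have hmon : f.Monic := hf.fam.ht.mon
  have hdeg : f.natDegree = 2 * g + 1 := hf.fam.ht.deg
  have hdsc : dsc g f ≠ 0 := hf.fam.sq.ne_zero
  set dd : ℕ := (dsc g f).natDegree with hdd
  refine ⟨(MM g + 1) * (2 + dd + (2 * g + 1 + 2 * g) * (cdg f + 1)) + KK g * C₁, ?_⟩
  intro K L O _ _ _ _ _ _ _ _ _ _ _ _ _ _ θ hgen α z N' hα hsq hnsq hcrd hz m hm
  obtain ⟨F, _, _, _, hfr, hcd, hsum, hfew⟩ := trs k m hm
  have hnz0 : nz f z ≠ 0 := nz_ne hgen hdsc hα hcrd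
  have hnzd := nz_deg f z N' hz
  set X : F → ℝ := fun t => ∑ i ∈ Finset.Icc 1 g, Sm f hmon (2 * i) (2 * g + 1 - 2 * i) z t with hX
  have hXE : ∀ t : F, aeval t (dsc g f) ≠ 0 →
      X t = E2 (f.map (evt (k := k) t)) (hmon.map _) g (psi z t) := by
    intro t hdt
    obtain ⟨-, hsqf, -⟩ := hStk k F g N r f t hf hdt
    rw [hX]
    unfold E2
    refine Finset.sum_congr rfl fun i hi => ?_
    obtain ⟨h1, h2⟩ := Finset.mem_Icc.1 hi
    exact (two_irr hComb (hmon.map _) hsqf (d := 2 * i) (e := 2 * g + 1 - 2 * i) (by omega)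
      (by omega) (by rw [hmon.natDegree_map, hdeg]; omega) (psi z t)).symm
  set G : F → Prop := fun t => (minpoly k t).natDegree = m ∧
    aeval t (dsc g f) ≠ 0 ∧ aeval t (nz f z) ≠ 0 with hG
  set cond : k[X] → Prop := fun Q => ¬ Q ∣ dsc g f ∧ nr O Q = 2 ∧ ¬ Tr O Q α with hcond
  have hbase : ∀ t, G t → (cond (minpoly k t) → X t = 1) ∧ (¬ cond (minpoly k t) → X t = 0) := by
    intro t hGt
    obtain ⟨hdm, hdt, hnt⟩ := hGt
    have hpm : (f.map (evt (k := k) t)).Monic := hmon.map _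
    have hpd : (f.map (evt (k := k) t)).natDegree = 2 * g + 1 := by rw [hmon.natDegree_map, hdeg]
    have hnd : ¬ minpoly k t ∣ dsc g f := fun h => hdt ((aeval_zero_iff t _).2 h)
    obtain ⟨hnr, hef, hec, hd⟩ := hDic k K L O g N r f θ hf hgen F t (by rw [hdm, hfr]) hnd
    obtain ⟨-, hd1, hd2⟩ := hd α z hα hsq hcrd (nv_nz hdeg z t hnt)
    rw [hXE t hdt]
    by_cases hnf : nf f t = 2
    · obtain ⟨a, ha1, ha2, ha3, ha4, ha5⟩ := two_struct hpm hpd hnf
      rw [E2_eq hpm hpd _ ha1 ha2 ha3 ha4 ha5]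
      have haE : a ∈ evd f t := ⟨ha1, ha2, ha3⟩
      have h1E : (1 : F[X]) ∈ evd f t := ⟨monic_one, one_dvd _, by simp⟩
      have hne : (1 : F[X]) ≠ a := fun h => ha4.not_isUnit (h ▸ isUnit_one)
      have hEq : evd f t = {1, a} := by
        symm
        apply Set.eq_of_subset_of_ncard_le _ _ hef
        · intro x hx
          rcases hx with rfl | hx
          · exact h1E
          · rw [Set.mem_singleton_iff] at hx; rw [hx]; exact haE
        · rw [hec, hnf, Set.ncard_pair hne]; norm_num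
      constructor
      · rintro ⟨-, -, h3⟩
        have h4 := hd2 h3
        rw [hEq, finsum_mem_pair hne] at h4
        have h5 : chi (nv (1 : F[X]) (zp (evt (k := k) t) z)) = 1 := by
          unfold nv chi
          have : Subsingleton (AdjoinRoot (1 : F[X])) := by
            apply subsingleton_of_zero_eq_one
            have : AdjoinRoot.mk (1 : F[X]) 1 = 0 := AdjoinRoot.mk_self
            rw [← this, map_one]
          rw [Subsingleton.elim (AdjoinRoot.mk (1 : F[X]) (zp (evt (k := k) t) z)) 1, map_one,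
            map_one]
          norm_num
        rw [h5] at h4
        unfold psi
        linarith
      · intro h3
        have hTr : Tr O (minpoly k t) α := by
          by_contra h4
          exact h3 ⟨hnd, by rw [hnr, hnf], h4⟩
        unfold psi
        rw [hd1 hTr a haE]
        norm_num
    · rw [E2_zero hpm _ hnf]
      refine ⟨?_, fun _ => rfl⟩
      rintro ⟨-, h, -⟩
      rw [hnr] at h
      exact absurd h hnf
  have hbad : ∀ t, |X t| ≤ (MM g : ℝ) := by
    intro t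
    rw [hX]
    dsimp only
    refine (Finset.abs_sum_le_sum_abs _ _).trans ?_
    unfold MM
    push_cast
    refine Finset.sum_le_sum fun i hi => ?_
    obtain ⟨h1, h2⟩ := Finset.mem_Icc.1 hi
    have h3 : 2 * i + (2 * g + 1 - 2 * i) = 2 * g + 1 := by omega
    have h4 := abs_Sm (k := k) f hmon (d := 2 * i) (e := 2 * g + 1 - 2 * i) (by omega) z t
    rw [h3] at h4
    push_cast at h4
    exact h4
  have hM0 : (0 : ℝ) ≤ MM g := by positivity
  have hcmp := compare F m cond G X (MM g)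
    (2 * √(cd F) + dd + (((2 * g + 1 + 2 * g) * (cdg f + N') : ℕ) : ℝ)) hM0 hsum (fun t h => h.1)
    (fun t h => (hbase t h).1) (fun t h => (hbase t h).2) hbad
    (bad_card (k := k) (F := F) (m := m) hdsc hnz0 hfew dd _ le_rfl hnzd)
  have hs1' : 1 ≤ √(cd F) := one_le_sqrt_cd
  have htot : |∑ t : F, X t - c2 g / 2 * cd F| ≤ KK g * (C₁ * (1 + N') * √(cd F)) := by
    have e1 : ∑ t : F, X t = ∑ i ∈ Finset.Icc 1 g, ∑ t : F, Sm f hmon (2 * i) (2 * g + 1 - 2 * i) z t := by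
      rw [hX, Finset.sum_comm]
    rw [e1]
    unfold c2 KK
    rw [Finset.sum_div, Finset.sum_mul, ← Finset.sum_sub_distrib]
    refine (Finset.abs_sum_le_sum_abs _ _).trans ?_
    push_cast
    rw [Finset.sum_mul]
    refine Finset.sum_le_sum fun i hi => ?_
    obtain ⟨h1, h2⟩ := Finset.mem_Icc.1 hi
    have h4 := sum_Sm (k := k) (g := g) hmon hComb (d := 2 * i) (e := 2 * g + 1 - 2 * i) (by omega)
      (by omega) (by omega) ⟨i, by omega⟩ C₁ (F := F) z N'
      (fun l c h1 h2 => (hW l c h1 h2).1 F) (by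
        intro l c hc1 hc2 B hB1 hB2
        have h1 := (hW l c hc1 hc2).2.2 B hB1 hB2 K L θ hgen α z N' hα hsq hnsq hcrd hz 1
          one_ne_zero F
        have h2 : ∀ t : F, chi (aeval t (1 : k[X])) = 1 := by
          intro t
          rw [map_one]
          unfold chi
          rw [map_one]
          norm_num
        simp only [h2, one_mul, natDegree_one, Nat.cast_zero, add_zero] at h1
        exact h1)
    have h5 : 1 / ((2 * i : ℕ) * (2 * g + 1 - 2 * i : ℕ) : ℝ) / 2 * cd F =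
        cd F / (2 * ((2 * i : ℕ) : ℝ) * ((2 * g + 1 - 2 * i : ℕ) : ℝ)) := by ring
    push_cast at h4 h5 ⊢
    rw [h5]
    exact h4
  rw [← hcd]
  have h7 : ((MM g : ℝ) + 1) * (2 * √(cd F) + dd + (((2 * g + 1 + 2 * g) * (cdg f + N') : ℕ) : ℝ)) ≤
      ((MM g : ℝ) + 1) * (2 + dd + (2 * g + 1 + 2 * g) * (cdg f + 1)) * (1 + N') * √(cd F) := by
    rw [mul_assoc, mul_assoc]
    refine mul_le_mul_of_nonneg_left ?_ (by linarith)
    have a1 : (0 : ℝ) ≤ (dd : ℝ) := by positivity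
    have a2 : (0 : ℝ) ≤ (g : ℝ) := by positivity
    have a3 : (0 : ℝ) ≤ (N' : ℝ) := by positivity
    have a4 : (0 : ℝ) ≤ (cdg f : ℝ) := by positivity
    have b1 : (2 : ℝ) * √(cd F) ≤ 2 * ((1 + N') * √(cd F)) := by
      have : √(cd F) ≤ (1 + N') * √(cd F) := by nlinarith
      linarith
    have b2 : (dd : ℝ) ≤ dd * ((1 + N') * √(cd F)) := by
      have : (1 : ℝ) ≤ (1 + N') * √(cd F) := by nlinarith
      nlinarith
    have b3 : (((2 * g + 1 + 2 * g) * (cdg f + N') : ℕ) : ℝ) ≤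
        (2 * g + 1 + 2 * g) * (cdg f + 1) * ((1 + N') * √(cd F)) := by
      push_cast
      calc (2 * g + 1 + 2 * g : ℝ) * (cdg f + N') ≤
          (2 * g + 1 + 2 * g) * ((cdg f + 1) * (1 + N')) * 1 := by
            rw [mul_one]
            refine mul_le_mul_of_nonneg_left ?_ (by positivity)
            nlinarith [mul_nonneg a4 a3]
        _ ≤ (2 * g + 1 + 2 * g) * ((cdg f + 1) * (1 + N')) * √(cd F) := by
            refine mul_le_mul_of_nonneg_left hs1' (by positivity)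
        _ = _ := by ring
    linarith
  have h8 := hcmp.trans h7
  have hgoal : ∀ A B Cc P Q : ℝ, |A - B| ≤ P → |B - Cc| ≤ Q → |A - Cc| ≤ P + Q := by
    intro A B Cc P Q h1 h2
    rw [abs_le] at h1 h2 ⊢
    constructor <;> linarith
  have h9 := hgoal _ _ _ _ _ h8 htot
  refine le_trans (le_of_eq ?_) (h9.trans (le_of_eq ?_))
  · congr!
  · push_cast; ring

end Run7.h908.TG
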