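import Pool.Agent.Run7.h784.TG.StmA
import Pool.Agent.N769.PJ.Int

/-!
# Factorisations of a polynomial over a field into monic factors of given degrees

Project TG (helper784); helper908. Tools for KILL (usable for LAST).
-/

set_option autoImplicit false
set_option linter.all false

open Polynomial
open scoped Classical

namespace Run7.h908.TG

open Run7.h784.TG (P_COMB FacR nv zp evt Fm nf evd)

section fac

variable {F : Type} [Field F]

/-- The monic divisors of a polynomial. -/
def MDv (p : F[X]) : Set F[X] := {a | a.Monic ∧ a ∣ p}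

theorem card_nf_le {p : F[X]} (hp : p.Monic) :
    Multiset.card (UniqueFactorizationMonoid.normalizedFactors p) ≤ p.natDegree := by
  set s := UniqueFactorizationMonoid.normalizedFactors p with hs
  have h1 : ∀ a ∈ s, Irreducible a := fun a ha =>
    UniqueFactorizationMonoid.irreducible_of_normalized_factor a ha
  have hprod : s.prod = p := by
    have h3 := UniqueFactorizationMonoid.prod_normalizedFactors_eq hp.ne_zero
    rw [hs, h3, hp.normalize_eq_self]
  have key : ∀ u : Multiset F[X], (∀ a ∈ u, Irreducible a) →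
      Multiset.card u ≤ u.prod.natDegree := by
    intro u
    induction u using Multiset.induction_on with
    | empty => intro _; simp
    | cons a u ih =>
      intro h
      have h0 : ∀ b ∈ u, Irreducible b := fun b hb => h b (Multiset.mem_cons_of_mem hb)
      have h2 : u.prod ≠ 0 := by
        rw [Ne, Multiset.prod_eq_zero_iff]
        intro h3
        exact (h0 0 h3).ne_zero rfl
      have h4 := h a (Multiset.mem_cons_self _ _)
      rw [Multiset.prod_cons, Multiset.card_cons, natDegree_mul h4.ne_zero h2]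
      have := ih h0
      have := h4.natDegree_pos
      omega
  have := key s h1
  rwa [hprod] at this

theorem mdv_aux {p : F[X]} (hp : p.Monic) : (MDv p).Finite ∧ (MDv p).ncard ≤ 2 ^ p.natDegree := by
  set s := UniqueFactorizationMonoid.normalizedFactors p with hs
  have hinj : Set.InjOn (fun a : F[X] => UniqueFactorizationMonoid.normalizedFactors a) (MDv p) := by
    intro a ha b hb h
    have h1 := UniqueFactorizationMonoid.prod_normalizedFactors_eq ha.1.ne_zero
    have h2 := UniqueFactorizationMonoid.prod_normalizedFactors_eq hb.1.ne_zero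
    rw [ha.1.normalize_eq_self] at h1
    rw [hb.1.normalize_eq_self] at h2
    dsimp only at h
    rw [← h1, ← h2, h]
  have hmaps : Set.MapsTo (fun a : F[X] => UniqueFactorizationMonoid.normalizedFactors a) (MDv p)
      (s.powerset.toFinset : Set (Multiset F[X])) := by
    intro a ha
    rw [Finset.mem_coe, Multiset.mem_toFinset, Multiset.mem_powerset]
    exact (UniqueFactorizationMonoid.dvd_iff_normalizedFactors_le_normalizedFactors
      ha.1.ne_zero hp.ne_zero).1 ha.2
  refine ⟨Set.Finite.of_injOn hmaps hinj (Finset.finite_toSet _), ?_⟩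
  have h1 := Set.ncard_le_ncard_of_injOn _ hmaps hinj (Finset.finite_toSet _)
  rw [Set.ncard_coe_finset] at h1
  refine h1.trans ((Multiset.toFinset_card_le _).trans ?_)
  rw [Multiset.card_powerset]
  exact Nat.pow_le_pow_right (by norm_num) (card_nf_le hp)

/-- The factorisations of `p` into monic factors of degrees `c i`. -/
def Tp (p : F[X]) {l : ℕ} (c : Fin l → ℕ) : Set (Fin l → F[X]) :=
  {a | (∀ i, (a i).Monic ∧ (a i).natDegree = c i) ∧ ∏ i, a i = p}

theorem tp_aux {p : F[X]} (hp : p.Monic) {l : ℕ} (c : Fin l → ℕ) :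
    (Tp p c).Finite ∧ (Tp p c).ncard ≤ (2 ^ p.natDegree) ^ l := by
  obtain ⟨h1, h2⟩ := mdv_aux hp
  set A : Finset F[X] := h1.toFinset with hA
  have hA1 : A.card ≤ 2 ^ p.natDegree := by
    rw [hA, ← Set.ncard_eq_toFinset_card _ h1]
    exact h2
  have hsub : Tp p c ⊆ (Fintype.piFinset (fun _ : Fin l => A) : Set (Fin l → F[X])) := by
    intro a ha
    rw [Finset.mem_coe, Fintype.mem_piFinset]
    intro i
    rw [hA, Set.Finite.mem_toFinset]
    refine ⟨(ha.1 i).1, ?_⟩
    rw [← ha.2]
    exact Finset.dvd_prod_of_mem _ (Finset.mem_univ i)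
  refine ⟨(Finset.finite_toSet _).subset hsub, ?_⟩
  refine (Set.ncard_le_ncard hsub (Finset.finite_toSet _)).trans ?_
  rw [Set.ncard_coe_finset, Fintype.card_piFinset]
  simp only [Finset.prod_const, Finset.card_univ, Fintype.card_fin]
  exact Nat.pow_le_pow_left hA1 l

theorem tp_fin {p : F[X]} (hp : p.Monic) {l : ℕ} (c : Fin l → ℕ) : (Tp p c).Finite :=
  (tp_aux hp c).1

/-- The monic divisors of degree `d`. -/
noncomputable def Dd (p : F[X]) (hp : p.Monic) (d : ℕ) : Finset F[X] :=
  (mdv_aux hp).1.toFinset.filter fun a => a.natDegree = d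

theorem mem_Dd {p : F[X]} {hp : p.Monic} {d : ℕ} {a : F[X]} :
    a ∈ Dd p hp d ↔ (a.Monic ∧ a ∣ p) ∧ a.natDegree = d := by
  unfold Dd
  rw [Finset.mem_filter, Set.Finite.mem_toFinset]
  rfl

theorem div_spec {p a : F[X]} (ha : a.Monic) (hd : a ∣ p) : a * (p / a) = p :=
  EuclideanDomain.mul_div_cancel' ha.ne_zero hd

theorem div_monic {p a : F[X]} (hp : p.Monic) (ha : a.Monic) (hd : a ∣ p) : (p / a).Monic := by
  have h := div_spec ha hd
  have h2 : (a * (p / a)).Monic := by rw [h]; exact hp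
  exact Monic.of_mul_monic_left ha h2

theorem div_deg {p a : F[X]} (hp : p.Monic) (ha : a.Monic) (hd : a ∣ p) :
    a.natDegree + (p / a).natDegree = p.natDegree := by
  have h := div_spec ha hd
  rw [← ha.natDegree_mul (div_monic hp ha hd), h]

/-- The number of the factorisations with a given product of the first factors. -/
theorem split_card {p : F[X]} (hp : p.Monic) {l l' : ℕ} (c : Fin l → ℕ) (c' : Fin l' → ℕ)
    {a : F[X]} (ha : a.Monic) (hd : a ∣ p) :
    ((tp_fin hp (Fin.append c c')).toFinset.filter fun x =>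
      ∏ i, x (Fin.castAdd l' i) = a).card = (Tp a c).ncard * (Tp (p / a) c').ncard := by
  have hb := div_monic hp ha hd
  rw [Set.ncard_eq_toFinset_card _ (tp_fin ha c), Set.ncard_eq_toFinset_card _ (tp_fin hb c'),
    ← Finset.card_product]
  refine Finset.card_bij' (fun x _ => (fun i => x (Fin.castAdd l' i), fun i => x (Fin.natAdd l i)))
    (fun y _ => Fin.append y.1 y.2) ?_ ?_ ?_ ?_
  · intro x hx
    rw [Finset.mem_filter, Set.Finite.mem_toFinset] at hx
    obtain ⟨⟨h1, h2⟩, h3⟩ := hx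
    rw [Finset.mem_product, Set.Finite.mem_toFinset, Set.Finite.mem_toFinset]
    refine ⟨⟨fun i => ?_, h3⟩, ⟨fun i => ?_, ?_⟩⟩
    · have := h1 (Fin.castAdd l' i)
      rwa [Fin.append_left] at this
    · have := h1 (Fin.natAdd l i)
      rwa [Fin.append_right] at this
    · have h4 : a * (∏ i, x (Fin.natAdd l i)) = a * (p / a) := by
        rw [div_spec ha hd, ← h2, ← h3, Fin.prod_univ_add]
      exact mul_left_cancel₀ ha.ne_zero h4
  · intro y hy
    rw [Finset.mem_product, Set.Finite.mem_toFinset, Set.Finite.mem_toFinset] at hy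
    obtain ⟨⟨h1, h2⟩, ⟨h3, h4⟩⟩ := hy
    rw [Finset.mem_filter, Set.Finite.mem_toFinset]
    refine ⟨⟨fun i => ?_, ?_⟩, ?_⟩
    · refine Fin.addCases (fun i => ?_) (fun i => ?_) i
      · rw [Fin.append_left, Fin.append_left]; exact h1 i
      · rw [Fin.append_right, Fin.append_right]; exact h3 i
    · rw [Fin.prod_univ_add]
      simp only [Fin.append_left, Fin.append_right]
      rw [h2, h4, div_spec ha hd]
    · simp only [Fin.append_left]
      exact h2
  · intro x _
    funext i
    refine Fin.addCases (fun i => ?_) (fun i => ?_) i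
    · rw [Fin.append_left]
    · rw [Fin.append_right]
  · intro y _
    refine Prod.ext (funext fun i => ?_) (funext fun i => ?_)
    · show Fin.append y.1 y.2 (Fin.castAdd l' i) = y.1 i
      rw [Fin.append_left]
    · show Fin.append y.1 y.2 (Fin.natAdd l i) = y.2 i
      rw [Fin.append_right]

/-- Sums over the factorisations of type `c, c'`. -/
theorem split_sum {p : F[X]} (hp : p.Monic) {l l' : ℕ} (c : Fin l → ℕ) (c' : Fin l' → ℕ) (d : ℕ)
    (hc : ∑ i, c i = d) (ψ : F[X] → ℝ) :
    ∑ x ∈ (tp_fin hp (Fin.append c c')).toFinset, ψ (∏ i, x (Fin.castAdd l' i)) =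
      ∑ a ∈ Dd p hp d, ψ a * ((Tp a c).ncard * (Tp (p / a) c').ncard) := by
  have hm : ∀ x ∈ (tp_fin hp (Fin.append c c')).toFinset,
      ∏ i, x (Fin.castAdd l' i) ∈ Dd p hp d := by
    intro x hx
    rw [Set.Finite.mem_toFinset] at hx
    obtain ⟨h1, h2⟩ := hx
    have h3 : ∀ i, (x (Fin.castAdd l' i)).Monic ∧ (x (Fin.castAdd l' i)).natDegree = c i := by
      intro i
      have := h1 (Fin.castAdd l' i)
      rwa [Fin.append_left] at this
    rw [mem_Dd]
    refine ⟨⟨monic_prod_of_monic _ _ fun i _ => (h3 i).1, ?_⟩, ?_⟩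
    · rw [← h2, Fin.prod_univ_add]
      exact dvd_mul_right _ _
    · rw [natDegree_prod_of_monic _ _ fun i _ => (h3 i).1, ← hc]
      exact Finset.sum_congr rfl fun i _ => (h3 i).2
  rw [← Finset.sum_fiberwise_of_maps_to hm]
  refine Finset.sum_congr rfl fun a ha => ?_
  rw [mem_Dd] at ha
  have h5 : ∀ x ∈ (tp_fin hp (Fin.append c c')).toFinset.filter fun x =>
      ∏ i, x (Fin.castAdd l' i) = a, ψ (∏ i, x (Fin.castAdd l' i)) = ψ a := by
    intro x hx
    rw [(Finset.mem_filter.1 hx).2]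
  rw [Finset.sum_congr rfl h5, Finset.sum_const, nsmul_eq_mul, split_card hp c c' ha.1.1 ha.1.2]
  push_cast
  ring

/-- The weight of the inclusion and exclusion. -/
noncomputable def wt (l : ℕ) : ℝ := (-1) ^ (l + 1) / l

theorem abs_wt {l : ℕ} (hl : 1 ≤ l) : |wt l| ≤ 1 := by
  unfold wt
  rw [abs_div, abs_pow, abs_neg, abs_one, one_pow, Nat.abs_cast]
  have : (1 : ℝ) ≤ l := by exact_mod_cast hl
  exact (div_le_one (by linarith)).2 this

/-- All compositions of `d`. -/
noncomputable def Co (d : ℕ) : Finset (Σ l : ℕ, (Fin l → ℕ)) := (Finset.Icc 1 d).sigma fun l => Run7.h784.TG.cmp d l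

theorem mem_Co {d : ℕ} {j : Σ l : ℕ, (Fin l → ℕ)} :
    j ∈ Co d ↔ (1 ≤ j.1 ∧ j.1 ≤ d) ∧ (∀ i, 1 ≤ j.2 i) ∧ ∑ i, j.2 i = d := by
  unfold Co Run7.h784.TG.cmp
  rw [Finset.mem_sigma, Finset.mem_Icc, Finset.mem_filter, Fintype.mem_piFinset]
  constructor
  · rintro ⟨h1, h2, h3⟩
    exact ⟨h1, fun i => (Finset.mem_Icc.1 (h2 i)).1, h3⟩
  · rintro ⟨h1, h2, h3⟩
    refine ⟨h1, fun i => Finset.mem_Icc.2 ⟨h2 i, ?_⟩, h3⟩
    rw [← h3]
    exact Finset.single_le_sum (f := fun i => j.2 i) (fun _ _ => Nat.zero_le _) (Finset.mem_univ i)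

theorem comb1 (h : P_COMB) {p : F[X]} (hp : p.Monic) (hs : Squarefree p) (h1 : 1 ≤ p.natDegree) :
    (if Irreducible p then (1 : ℝ) else 0) =
      ∑ j ∈ Co p.natDegree, wt j.1 * (Tp p j.2).ncard := by
  rw [h.1 F p p.natDegree hp hs rfl h1, Co, Finset.sum_sigma]
  refine Finset.sum_congr rfl fun l _ => ?_
  rw [Finset.mul_sum]
  rfl

theorem comb2 (h : P_COMB) {d : ℕ} (h1 : 1 ≤ d) : ∑ j ∈ Co d, wt j.1 = 1 / d := by
  rw [← h.2 d h1, Co, Finset.sum_sigma]
  refine Finset.sum_congr rfl fun l _ => ?_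
  have : ∀ s ∈ Run7.h784.TG.cmp d l, wt (⟨l, s⟩ : Σ l : ℕ, (Fin l → ℕ)).1 = wt l := fun _ _ => rfl
  rw [Finset.sum_congr rfl this, Finset.sum_const, nsmul_eq_mul, mul_comm]
  rfl

/-- Sums over the factorisations into two irreducible factors. -/
theorem two_irr (h : P_COMB) {p : F[X]} (hp : p.Monic) (hs : Squarefree p) {d e : ℕ}
    (hd : 1 ≤ d) (he : 1 ≤ e) (hde : p.natDegree = d + e) (ψ : F[X] → ℝ) :
    ∑ a ∈ Dd p hp d, (if Irreducible a ∧ Irreducible (p / a) then ψ a else 0) =
      ∑ j ∈ Co d ×ˢ Co e, wt j.1.1 * wt j.2.1 *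
        ∑ x ∈ (tp_fin hp (Fin.append j.1.2 j.2.2)).toFinset,
          ψ (∏ i, x (Fin.castAdd j.2.1 i)) := by
  have h1 : ∀ j ∈ Co d ×ˢ Co e, wt j.1.1 * wt j.2.1 *
        ∑ x ∈ (tp_fin hp (Fin.append j.1.2 j.2.2)).toFinset, ψ (∏ i, x (Fin.castAdd j.2.1 i)) =
      ∑ a ∈ Dd p hp d, ψ a * ((wt j.1.1 * (Tp a j.1.2).ncard) *
        (wt j.2.1 * (Tp (p / a) j.2.2).ncard)) := by
    intro j hj
    rw [Finset.mem_product, mem_Co] at hj
    rw [split_sum hp j.1.2 j.2.2 d hj.1.2.2, Finset.mul_sum]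
    refine Finset.sum_congr rfl fun a _ => ?_
    ring
  rw [Finset.sum_congr rfl h1, Finset.sum_comm]
  refine Finset.sum_congr rfl fun a ha => ?_
  rw [mem_Dd] at ha
  obtain ⟨⟨ha1, ha2⟩, ha3⟩ := ha
  have hb := div_monic hp ha1 ha2
  have hbd := div_deg hp ha1 ha2
  have hbe : (p / a).natDegree = e := by omega
  have e1 := comb1 h ha1 (hs.squarefree_of_dvd ha2) (by omega)
  have e2 := comb1 h hb (hs.squarefree_of_dvd ⟨a, by rw [mul_comm]; exact (div_spec ha1 ha2).symm⟩)
    (by omega)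
  rw [ha3] at e1
  rw [hbe] at e2
  rw [← Finset.mul_sum, Finset.sum_product]
  have e3 : ∑ x ∈ Co d, ∑ y ∈ Co e, wt x.1 * ((Tp a x.2).ncard : ℝ) *
      (wt y.1 * ((Tp (p / a) y.2).ncard : ℝ)) = (∑ x ∈ Co d, wt x.1 * ((Tp a x.2).ncard : ℝ)) *
      ∑ y ∈ Co e, wt y.1 * ((Tp (p / a) y.2).ncard : ℝ) := by
    rw [Finset.sum_mul_sum]
  rw [e3, ← e1, ← e2]
  by_cases h3 : Irreducible a <;> by_cases h4 : Irreducible (p / a) <;> simp [h3, h4]

/-- Two irreducible factors, of even and odd degree: they are determined. -/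
theorem uniq {p : F[X]} (hp : p.Monic) {d e : ℕ} (hne : d ≠ e) (hde : p.natDegree = d + e)
    {a a' : F[X]} (ha : a ∈ Dd p hp d) (ha' : a' ∈ Dd p hp d) (h1 : Irreducible a)
    (h2 : Irreducible (p / a)) (h3 : Irreducible a') : a' = a := by
  rw [mem_Dd] at ha ha'
  have hs := div_spec ha.1.1 ha.1.2
  have hb := div_monic hp ha.1.1 ha.1.2
  have hbd := div_deg hp ha.1.1 ha.1.2
  have h4 : a' ∣ a * (p / a) := by rw [hs]; exact ha'.1.2
  rcases h3.prime.dvd_or_dvd h4 with h5 | h5
  · exact eq_of_monic_of_dvd_of_natDegree_le ha'.1.1 ha.1.1 h5 (by omega)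
      |>.symm
  · have := eq_of_monic_of_associated ha'.1.1 hb ((h3.dvd_irreducible_iff_associated h2).1 h5)
    have h6 := congrArg natDegree this
    omega

/-- The number of factors of a product of two irreducible monic polynomials. -/
theorem card_nf_two {a b : F[X]} (ha : Irreducible a) (hb : Irreducible b) :
    Multiset.card (UniqueFactorizationMonoid.normalizedFactors (a * b)) = 2 := by
  rw [UniqueFactorizationMonoid.normalizedFactors_mul ha.ne_zero hb.ne_zero, Multiset.card_add,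
    UniqueFactorizationMonoid.normalizedFactors_irreducible ha,
    UniqueFactorizationMonoid.normalizedFactors_irreducible hb]
  rfl

end fac

end Run7.h908.TG
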