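import Pool.Agent.Run7.h908.TG.Fac

/-!
# The norm of `α` as a polynomial in `t`

Project TG (helper784); helper908.
-/

set_option autoImplicit false
set_option linter.all false

open Polynomial
open scoped Classical

namespace Run7.h908.TG

open Run7.h784.TG (P_COMB FacR nv zp evt Fm nf evd)
open Pool.Agent.N352.PJ (IsGen Crd dsc)

/-- The degree of a determinant. -/
theorem det_deg {k : Type} [Field k] {n : ℕ} (M : Matrix (Fin n) (Fin n) k[X]) (B : ℕ)
    (h : ∀ i j, (M i j).natDegree ≤ B) : M.det.natDegree ≤ n * B := by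
  rw [Matrix.det_apply]
  refine natDegree_sum_le_of_forall_le _ _ fun σ _ => ?_
  have h1 : (∏ i, M (σ i) i).natDegree ≤ n * B := by
    refine (natDegree_prod_le _ _).trans ?_
    refine (Finset.sum_le_sum fun i _ => h (σ i) i).trans ?_
    rw [Finset.sum_const, Finset.card_univ, Fintype.card_fin, smul_eq_mul]
  rcases Int.units_eq_one_or (Equiv.Perm.sign σ) with h2 | h2
  · rw [h2, one_smul]; exact h1
  · rw [h2, Units.neg_smul, one_smul, natDegree_neg]; exact h1

/-- The degree of a resultant. -/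
theorem res_deg {k : Type} [Field k] (p q : k[X][X]) (m n : ℕ) (A B : ℕ)
    (hp : ∀ j, (p.coeff j).natDegree ≤ A) (hq : ∀ j, (q.coeff j).natDegree ≤ B) :
    (p.resultant q m n).natDegree ≤ (m + n) * (A + B) := by
  unfold Polynomial.resultant
  refine det_deg _ _ fun i j => ?_
  unfold Polynomial.sylvester
  rw [Matrix.of_apply]
  refine Fin.addCases (fun j => ?_) (fun j => ?_) j
  · rw [Fin.addCases_left]
    split_ifs
    · exact (hq _).trans (by omega)
    · simp
  · rw [Fin.addCases_right]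
    split_ifs
    · exact (hp _).trans (by omega)
    · simp

/-- The polynomial with the coefficients `z i`. -/
noncomputable def Zp {k : Type} [Field k] {m : ℕ} (z : Fin m → k[X]) : k[X][X] :=
  ∑ i, C (z i) * X ^ (i : ℕ)

theorem Zp_map {k W : Type} [Field k] [Field W] (φ : k[X] →+* W) {m : ℕ} (z : Fin m → k[X]) :
    (Zp z).map φ = zp φ z := by
  unfold Zp zp
  rw [Polynomial.map_sum]
  refine Finset.sum_congr rfl fun i _ => ?_
  rw [Polynomial.map_mul, map_C, Polynomial.map_pow, map_X]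

theorem Zp_deg {k : Type} [Field k] {m : ℕ} (z : Fin (m + 1) → k[X]) : (Zp z).natDegree ≤ m := by
  unfold Zp
  refine natDegree_sum_le_of_forall_le _ _ fun i _ => ?_
  refine (natDegree_C_mul_X_pow_le _ _).trans ?_
  have := i.2
  omega

theorem Zp_coeff {k : Type} [Field k] {m : ℕ} (z : Fin m → k[X]) (N' : ℕ)
    (hz : ∀ i, (z i).natDegree ≤ N') (j : ℕ) : ((Zp z).coeff j).natDegree ≤ N' := by
  unfold Zp
  rw [finset_sum_coeff]
  refine natDegree_sum_le_of_forall_le _ _ fun i _ => ?_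
  rw [coeff_C_mul_X_pow]
  split_ifs
  · exact hz i
  · simp

/-- A bound for the degrees of the coefficients. -/
noncomputable def cdg {k : Type} [Field k] (f : k[X][X]) : ℕ := ∑ j ∈ f.support, (f.coeff j).natDegree

theorem cdg_le {k : Type} [Field k] (f : k[X][X]) (j : ℕ) : (f.coeff j).natDegree ≤ cdg f := by
  by_cases h : j ∈ f.support
  · exact Finset.single_le_sum (f := fun j => (f.coeff j).natDegree) (fun _ _ => Nat.zero_le _) h
  · rw [notMem_support_iff.1 h]; simp

/-- The norm of `α` as a polynomial. -/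
noncomputable def nz {k : Type} [Field k] {g : ℕ} (f : k[X][X]) (z : Fin (2 * g + 1) → k[X]) : k[X] :=
  f.resultant (Zp z) (2 * g + 1) (2 * g)

theorem nz_deg {k : Type} [Field k] {g : ℕ} (f : k[X][X]) (z : Fin (2 * g + 1) → k[X]) (N' : ℕ)
    (hz : ∀ i, (z i).natDegree ≤ N') :
    (nz f z).natDegree ≤ (2 * g + 1 + 2 * g) * (cdg f + N') :=
  res_deg _ _ _ _ _ _ (cdg_le f) (Zp_coeff z N' hz)

theorem nz_ne {k K L : Type} [Field k] [Field K] [Algebra k[X] K] [IsFractionRing k[X] K]
    [Field L] [Algebra K L] [Algebra k[X] L] [IsScalarTower k[X] K L] {g : ℕ} {f : k[X][X]}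
    {θ : L} (h : IsGen g K f θ) (hd : dsc g f ≠ 0) {z : Fin (2 * g + 1) → k[X]} {α : L}
    (hα : α ≠ 0) (hz : Crd g θ z α) : nz f z ≠ 0 := by
  intro h0
  have hfd : FiniteDimensional K L := Module.finite_of_finrank_pos (by rw [h.rank]; omega)
  have h1 := Pool.Agent.N769.PJ.nrm h hd ((Zp z).map (algebraMap k[X] K)) (2 * g)
    (natDegree_map_le.trans (Zp_deg z))
  have h2 : aeval θ ((Zp z).map (algebraMap k[X] K)) = α := by
    unfold Crd at hz
    rw [aeval_map_algebraMap, hz]
    unfold Zp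
    rw [map_sum]
    refine Finset.sum_congr rfl fun i _ => ?_
    rw [map_mul, map_pow, aeval_X, aeval_C]
  rw [h2, resultant_map_map] at h1
  unfold nz at h0
  rw [h0, map_zero, Algebra.norm_eq_zero_iff] at h1
  exact hα h1

/-- `nv` of coprime polynomials is not zero. -/
theorem nv_ne {W : Type} [Field W] {a p : W[X]} (h : IsCoprime a p) : nv a p ≠ 0 := by
  obtain ⟨u, v, huv⟩ := h
  have h1 : AdjoinRoot.mk a v * AdjoinRoot.mk a p = 1 := by
    have h3 := congrArg (AdjoinRoot.mk a) huv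
    rw [map_add, map_mul, map_mul, AdjoinRoot.mk_self, mul_zero, zero_add, map_one] at h3
    exact h3
  have h2 : IsUnit (AdjoinRoot.mk a p) := IsUnit.of_mul_eq_one (AdjoinRoot.mk a v) (by rw [mul_comm, h1])
  exact (h2.map (Algebra.norm W)).ne_zero

theorem cop_of_nz {k F : Type} [Field k] [Field F] [Algebra k F] {g : ℕ} {f : k[X][X]}
    (hf : f.natDegree = 2 * g + 1) (z : Fin (2 * g + 1) → k[X]) (t : F)
    (h : aeval t (nz f z) ≠ 0) :
    IsCoprime (f.map (evt (k := k) t)) (zp (evt (k := k) t) z) := by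
  obtain ⟨p, q, -, -, h1⟩ := exists_mul_add_mul_eq_C_resultant f (Zp z) hf.le (Zp_deg z)
    (Or.inl (Nat.succ_ne_zero _))
  have h2 := congrArg (fun p : k[X][X] => p.map (evt (k := k) t)) h1
  simp only [Polynomial.map_add, Polynomial.map_mul, map_C, Zp_map] at h2
  have h3 : evt (k := k) t (f.resultant (Zp z) (2 * g + 1) (2 * g)) ≠ 0 := h
  refine ⟨C (evt (k := k) t (f.resultant (Zp z) (2 * g + 1) (2 * g)))⁻¹ * p.map (evt (k := k) t),
    C (evt (k := k) t (f.resultant (Zp z) (2 * g + 1) (2 * g)))⁻¹ * q.map (evt (k := k) t), ?_⟩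
  have h4 : C (evt (k := k) t (f.resultant (Zp z) (2 * g + 1) (2 * g)))⁻¹ *
      C (evt (k := k) t (f.resultant (Zp z) (2 * g + 1) (2 * g))) = (1 : F[X]) := by
    rw [← C_mul, inv_mul_cancel₀ h3, C_1]
  rw [← h2] at h4
  rw [← h4]
  ring

theorem nv_nz {k F : Type} [Field k] [Field F] [Algebra k F] {g : ℕ} {f : k[X][X]}
    (hf : f.natDegree = 2 * g + 1) (z : Fin (2 * g + 1) → k[X]) (t : F)
    (h : aeval t (nz f z) ≠ 0) :
    nv (f.map (evt (k := k) t)) (zp (evt (k := k) t) z) ≠ 0 := nv_ne (cop_of_nz hf z t h)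

end Run7.h908.TG
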